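import Mathlib
import Pool.Agent.Lib.MP_8ac08c_co.Def

/-!
# MP_8ac08c_co, project SQ: `τ±(Z_p × Z_p, p) = p - 1 + ⌊log₂ p⌋` for all primes `p ≥ 10^12`

Definitions and statements of the pieces, with complete proofs in words. Every piece is a theorem
`p_xxx : S_xxx` in the file `SQ/P/xxx.lean` (namespace `Pool.Agent.Lib.MP_8ac08c_co.SQ`).

Structure of the proof. `A ⊂ Z_p²`, `|A| = p + t`, `t = ⌊log₂ p⌋`. We look for `p` distinct elements
of `A` with a signed sum `0`. (1) By counting with characters we are done unless for some character,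
w.l.o.g. the first coordinate, almost all elements of `A` have one of at most `ηp + 3` first
coordinates. (2) Then there are a few disjoint pairs `(a, b)` of elements with the same first
coordinate such that the signed sums of the differences of the second coordinates cover `Z_p`
(groups of `8` pairs with `2^8` different signed sums, and Cauchy-Davenport). (3) If in the rest of
`A` there is an odd number of elements with a signed sum of first coordinates `0`, take the largest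
such subset; its complement is dissociated, so has at most `1 + t` elements, and we are done.
(4) If not, then almost all elements have first coordinate `±x`, w.l.o.g. `x = 1`. (5) In this case
there is either again an odd solution, or a direct construction.
-/

set_option autoImplicit false

open Finset

namespace Pool.Agent.Lib.MP_8ac08c_co.SQ

/-! ## Definitions -/

/-- `A` contains `k` distinct elements with a signed sum `0`. -/
def Sol {G : Type} [AddCommGroup G] (A : Finset G) (k : ℕ) : Prop :=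
  ∃ P N : Finset G, P ⊆ A ∧ N ⊆ A ∧ Disjoint P N ∧ #P + #N = k ∧ ∑ x ∈ P, x = ∑ x ∈ N, x

/-- `A` contains an odd number of distinct elements with a signed sum of first coordinates `0`. -/
def OddSol {p : ℕ} (A : Finset (ZMod p × ZMod p)) : Prop :=
  ∃ P N : Finset (ZMod p × ZMod p), P ⊆ A ∧ N ⊆ A ∧ Disjoint P N ∧ Odd (#P + #N) ∧
    ∑ x ∈ P, x.1 = ∑ x ∈ N, x.1

/-- The list of the elements of a list of pairs. -/
def flat {G : Type} (l : List (G × G)) : List G := l.flatMap fun x => [x.1, x.2]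

/-- The set of the signed sums of the differences of the second coordinates. -/
def sg {p : ℕ} : List ((ZMod p × ZMod p) × (ZMod p × ZMod p)) → Finset (ZMod p)
  | [] => {0}
  | x :: l => (sg l).image (fun s => s + (x.1.2 - x.2.2)) ∪
      (sg l).image (fun s => s - (x.1.2 - x.2.2))

/-- `l` is a list of disjoint pairs of elements of `Y` with the same first coordinates. -/
structure PairList {p : ℕ} (Y : Finset (ZMod p × ZMod p))
    (l : List ((ZMod p × ZMod p) × (ZMod p × ZMod p))) : Prop where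
  nodup : (flat l).Nodup
  mem : ∀ z ∈ flat l, z ∈ Y
  fst : ∀ x ∈ l, x.1.1 = x.2.1

/-- The signed sums of first coordinates of subsets of `s` whose size has the parity `i`. -/
noncomputable def EO {p : ℕ} [NeZero p] (i : ℕ) (s : Finset (ZMod p × ZMod p)) :
    Finset (ZMod p) := by
  classical
  exact univ.filter fun z => ∃ P N : Finset (ZMod p × ZMod p), P ⊆ s ∧ N ⊆ s ∧ Disjoint P N ∧
    (#P + #N) % 2 = i % 2 ∧ ∑ x ∈ P, x.1 - ∑ x ∈ N, x.1 = z

/-- The odd integer between `1` and `p` which represents `v` or `-v` (`p` odd). -/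
def J {p : ℕ} (v : ZMod p) : ℕ := if v.val % 2 = 1 then v.val else p - v.val

/-- The angle of the character `c` at `b`. -/
noncomputable def ang {p : ℕ} (c b : ZMod p × ZMod p) : ℝ :=
  2 * Real.pi * ((c.1 * b.1 + c.2 * b.2 : ZMod p).val : ℝ) / p

/-! ## A. Counting with characters -/

/-- [SQ fca] Orthogonality. PROOF. Let `ψ = ZMod.stdAddChar : AddChar (ZMod p) ℂ`,
`ψ x = exp(2πi x.val / p)` (`ZMod.stdAddChar_apply`, `ZMod.toCircle_apply`), and
`c · b = c.1 * b.1 + c.2 * b.2`. Then `2 cos (ang c b) = ψ(c · b) + ψ(-(c · b))`. Work in `ℂ` (cast).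
`∏_{b ∈ B} (ψ(c·b) + ψ(-(c·b))) = ∑_{P ⊆ B} ψ(c · (∑ P - ∑ (B \ P)))` (`Finset.prod_add`,
`AddChar.map_add_eq_mul`, ...). Exchange the sums; for `g ∈ Z_p²`, `∑_c ψ(c · g)` is `p^2` if `g = 0`
and `0` otherwise: it is `(∑_{c1} ψ(c1 g.1)) (∑_{c2} ψ(c2 g.2))`, and `∑_x ψ(x y) = p` if `y = 0`, `0`
otherwise (`AddChar.sum_mulShift`, `ZMod.isPrimitive_stdAddChar`). -/
def S_fca : Prop := ∀ (p : ℕ) (_ : p.Prime) [NeZero p] (B : Finset (ZMod p × ZMod p)),
  ∑ c : ZMod p × ZMod p, ∏ b ∈ B, (2 * Real.cos (ang c b)) =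
    (p : ℝ) ^ 2 * #(B.powerset.filter fun P => ∑ x ∈ P, x = ∑ x ∈ B \ P, x)

/-- [SQ fcb] PROOF. `cos² = 1 - sin² ≤ exp(-sin²)` (`Real.one_sub_le_exp_neg`), so
`|cos x| ≤ exp(-sin² x / 2)` (take square roots). The product over `B` is
at most `exp(-(∑_B sin²)/2)`, and `∑_B sin² ≥ ∑_A sin² - #(A \ B)` as `sin² ≤ 1`. -/
def S_fcb : Prop := ∀ (ι : Type) [DecidableEq ι] (θ : ι → ℝ) (A B : Finset ι), B ⊆ A →
  ∏ b ∈ B, |Real.cos (θ b)| ≤
    Real.exp (-(∑ a ∈ A, Real.sin (θ a) ^ 2 - ((#A : ℝ) - #B)) / 2)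

/-- [SQ four] Uses `S_fca`, `S_fcb`. PROOF. Sum `S_fca` over all `B ∈ A.powersetCard k`. If there is no
solution then the right sides are all `0` (a set `P` of the filter gives the solution
`(P, B \ P)`). The term `c = 0` on the left is `M = C(k + t, k) 2^k > 0` (`ang 0 b = 0`, `cos 0 = 1`). For
`c ≠ 0`, by `S_fcb` (`#A - #B = t`),
`|∑_B ∏_B 2 cos| ≤ C(k+t, k) 2^k exp(-(S_c - t)/2) < M / p^2`, because `S_c > 4 log p + t` gives
`exp(-(S_c - t)/2) < exp(-2 log p) = p^{-2}`. There are `p^2 - 1` such `c`, so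
the absolute value of the sum over `c ≠ 0` is `< M`: contradiction. -/
def S_four : Prop := ∀ (p : ℕ) (_ : p.Prime) (A : Finset (ZMod p × ZMod p)) (k t : ℕ),
  #A = k + t →
  (∀ c : ZMod p × ZMod p, c ≠ 0 →
    4 * Real.log p + t < ∑ a ∈ A, Real.sin (ang c a) ^ 2) → Sol A k

/-- [SQ cnt] PROOF. `|sin (π y)| ≥ 2 |y - m|` if `m` is an integer with `|y - m| ≤ 1/2`
(`Real.mul_le_sin`, periodicity). With `y = 2k/p ∈ [0, 2)` and `m ∈ {0, 1, 2}` the nearest integer,
`|sin(2πk/p)| < η` implies `|2k - m p| < η p / 2`, `|k - m p / 2| < η p / 4`. So `k` lies in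
`[0, ηp/4)`, `(p/2 - ηp/4, p/2 + ηp/4)` or `(p - ηp/4, p)`, which contain at most
`ηp/4 + 1`, `ηp/2 + 1`, `ηp/4 + 1` integers. -/
def S_cnt : Prop := ∀ (p : ℕ) (_ : 2 ≤ p) (η : ℝ), 0 < η →
  (#((range p).filter fun k : ℕ => |Real.sin (2 * Real.pi * (k : ℝ) / p)| < η) : ℝ) ≤ η * p + 3

/-- [SQ conc] Uses `S_cnt`. PROOF. Let `Y` be the set of all `a ∈ A` with
`|sin(2π a.1.val / p)| < η`. The elements of `A \ Y` contribute at least `η²` each to the sum. The
map `v ↦ v.val` is injective on `ZMod p` and maps `Y.image Prod.fst` into the set of `S_cnt`. -/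
def S_conc : Prop := ∀ (p : ℕ) (_ : p.Prime) (A : Finset (ZMod p × ZMod p)) (R η : ℝ), 0 < η →
  ∑ a ∈ A, Real.sin (2 * Real.pi * (a.1.val : ℝ) / p) ^ 2 ≤ R →
  ∃ Y ⊆ A, (#(A \ Y) : ℝ) * η ^ 2 ≤ R ∧ (#(Y.image Prod.fst) : ℝ) ≤ η * p + 3

/-- [SQ lin] Change of coordinates. PROOF. (1) If `c.1 ≠ 0` take
`φ a = (c.1 * a.1 + c.2 * a.2, a.2)`, if `c.1 = 0`, `c.2 ≠ 0` take `φ a = (c.2 * a.2, a.1)`. (2) `φ`
maps `A` onto `A.image φ` injectively and commutes with sums: pull back `P`, `N`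
(`P.image φ.symm`, `map_sum`). -/
def S_lin : Prop :=
  (∀ (p : ℕ) (_ : p.Prime) (c : ZMod p × ZMod p), c ≠ 0 →
    ∃ φ : (ZMod p × ZMod p) ≃+ (ZMod p × ZMod p), ∀ a, (φ a).1 = c.1 * a.1 + c.2 * a.2) ∧
  (∀ (p : ℕ) (φ : (ZMod p × ZMod p) ≃+ (ZMod p × ZMod p)) (A : Finset (ZMod p × ZMod p)) (k : ℕ),
    Sol (A.image φ) k → Sol A k)

/-! ## B. Pairs -/

/-- [SQ stp] One more pair. PROOF. `#(flat l) = 2 length l`, so
`Y' = Y \ (flat l).toFinset` has more than `4^length * #(Y.image fst)` elements. By the pigeonhole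
principle (`Finset.exists_lt_card_fiber_of_mul_lt_card_of_maps_to`) there is a first coordinate `v`
such that `Y'` has more than `4^length` elements with first coordinate `v`; fix one of them, `z0`. Let
`E = {(s - s') / 2 | s, s' ∈ sg l}`, a set of at most `4^length` elements (`2` is invertible, `p` odd).
The elements `z.2 - z0.2` for these `z` are more than `4^length` different
elements, so one of them, `d`, is not in `E`. `0 ∈ E`, so `z ≠ z0`. Add the pair `(z, z0)`: the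
sets `sg l + d` and `sg l - d` are disjoint because `s + d = s' - d` gives
`2 d = s' - s`, `d ∈ E`. So `#(sg ((z, z0) :: l)) = 2 #(sg l)`. -/
def S_stp : Prop := ∀ (p : ℕ) (_ : p.Prime) (_ : p ≠ 2) (Y : Finset (ZMod p × ZMod p))
  (l : List ((ZMod p × ZMod p) × (ZMod p × ZMod p))), PairList Y l →
  #(sg l) = 2 ^ l.length → 4 ^ l.length * #(Y.image Prod.fst) + 2 * l.length < #Y →
  ∃ x, PairList Y (x :: l) ∧ #(sg (x :: l)) = 2 ^ (l.length + 1)

/-- [SQ grp] A group of 8 pairs. Uses `S_stp`. PROOF. Start with the empty list and apply `S_stp`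
8 times (induction: for all `j ≤ 8` there is such a list of length `j`; `4^j ≤ 16384` and
`2 j < 16` for `j ≤ 7`). -/
def S_grp : Prop := ∀ (p : ℕ) (_ : p.Prime) (_ : p ≠ 2) (Y : Finset (ZMod p × ZMod p)),
  16384 * #(Y.image Prod.fst) + 16 ≤ #Y →
  ∃ l, PairList Y l ∧ l.length = 8 ∧ #(sg l) = 256

/-- [SQ app] Concatenation. PROOF. (1) Induction on `l`: `sg (x :: l) = {d, -d} + sg l`. (2) clear
from (1) (in fact from the definition). (3) from the definition of `flat`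
(`List.flatMap_append`, `List.nodup_append`, ...). -/
def S_app : Prop := ∀ (p : ℕ) (l l' : List ((ZMod p × ZMod p) × (ZMod p × ZMod p))),
  (sg (l ++ l') = (sg l ×ˢ sg l').image (fun x => x.1 + x.2)) ∧ (sg l).Nonempty ∧
  (∀ Y : Finset (ZMod p × ZMod p), PairList (Y \ (flat l).toFinset) l' → PairList Y l →
    PairList Y (l' ++ l)) ∧
  (∀ Y : Finset (ZMod p × ZMod p), PairList Y (l ++ l') → PairList Y l ∧
    PairList (Y \ (flat l).toFinset) l') ∧
  (flat l).length = 2 * l.length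

/-- [SQ grps] Many groups. Uses `S_grp`, `S_app`. PROOF. Induction on `r`. Given the list `l` for
`r`, put `Y' = Y \ (flat l).toFinset`; `#Y' = #Y - 16 r` and `Y'.image fst ⊆ Y.image fst`, so `S_grp`
applies to `Y'` and gives `l'`. By `S_app` and Cauchy-Davenport (`ZMod.cauchy_davenport`),
`#(sg (l' ++ l)) ≥ min p (256 + #(sg l) - 1)`. -/
def S_grps : Prop := ∀ (p : ℕ) (_ : p.Prime) (_ : p ≠ 2) (Y : Finset (ZMod p × ZMod p)) (r : ℕ),
  16384 * #(Y.image Prod.fst) + 16 * r ≤ #Y →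
  ∃ l, PairList Y l ∧ l.length = 8 * r ∧ min p (255 * r + 1) ≤ #(sg l)

/-- [SQ sel] Selection of signs. PROOF. Induction on `l`: for `x = (a, b)` and the sign `+` put `a` in
`P` and `b` in `N` (difference of the second coordinates `a.2 - b.2`, of the first coordinates
`0`), for the sign `-` put `b` in `P` and `a` in `N`. -/
def S_sel : Prop := ∀ (p : ℕ) (Y : Finset (ZMod p × ZMod p))
  (l : List ((ZMod p × ZMod p) × (ZMod p × ZMod p))), PairList Y l → ∀ z ∈ sg l,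
  ∃ P N : Finset (ZMod p × ZMod p), P ∪ N = (flat l).toFinset ∧ Disjoint P N ∧
    #P + #N = 2 * l.length ∧ ∑ x ∈ P, x = ∑ x ∈ N, x + (0, z)

/-! ## C. Finishing with an odd solution -/

/-- [SQ dis] Dissociated sets are small. PROOF. The map
`S ↦ (∑_{x ∈ S} x.1, #S mod 2)` from the subsets of `C` to `ZMod p × ZMod 2` is injective: if
`S`, `S'` have the same image then `P = S \ S'`, `N = S' \ S` are disjoint with the same sums of
first coordinates, and `#P + #N = #S + #S' - 2 #(S ∩ S')` is even, so `P = N = ∅`, `S = S'`. So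
`2^#C ≤ 2 p` and `#C ≤ Nat.log 2 (2 p) = 1 + Nat.log 2 p`. -/
def S_dis : Prop := ∀ (p : ℕ) (_ : 0 < p) (C : Finset (ZMod p × ZMod p)),
  (∀ P N : Finset (ZMod p × ZMod p), P ⊆ C → N ⊆ C → Disjoint P N → Even (#P + #N) →
    ∑ x ∈ P, x.1 = ∑ x ∈ N, x.1 → P = ∅ ∧ N = ∅) → #C ≤ 1 + Nat.log 2 p

/-- [SQ fin] Uses `S_dis`, `S_app`, `S_sel`. PROOF. Let `F = (flat (l₁ ++ l₂)).toFinset`,
`q = l₁.length + l₂.length`, `t = Nat.log 2 p`, `A' = A \ F`, `#A' = p + t - 2q`. Among the odd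
solutions in `A'` take one, `(P₁, N₁)`, with `s = #P₁ + #N₁` maximal. The complement
`C = A' \ (P₁ ∪ N₁)` satisfies the hypothesis of `S_dis`: otherwise `(P₁ ∪ P, N₁ ∪ N)` is a larger odd
solution. So `#A' - s ≤ 1 + t`, i.e. `p ≤ s + 2q + 1`; `s` and `p` are odd, so `p ≤ s + 2q`, and
`s + 2q - p ≤ t` is even, `= 2e`, `e ≤ t/2 ≤ l₂.length`. Let `l₂' = l₂.drop e` (a list with
`l₂.length - e` pairs, disjoint from `l₁`; its signed sums are non-empty: take any `z₂ ∈ sg l₂'` and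
`S_sel`). The sum `∑ P₁ - ∑ N₁` is `(0, z₁)`. Choose by `S_sel` the signs for `l₁` with
`z = - z₁ - z₂ ∈ sg l₁ = univ`. The union of the three signed sets is a signed sum `0` with
`s + 2 l₁.length + 2 (l₂.length - e) = p` elements. -/
def S_fin : Prop := ∀ (p : ℕ) (_ : p.Prime) (_ : p ≠ 2) [NeZero p]
  (A : Finset (ZMod p × ZMod p)) (l₁ l₂ : List ((ZMod p × ZMod p) × (ZMod p × ZMod p))),
  #A = p + Nat.log 2 p → PairList A (l₁ ++ l₂) → sg l₁ = univ → Nat.log 2 p ≤ 2 * l₂.length →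
  OddSol (A \ (flat (l₁ ++ l₂)).toFinset) → Sol A p

/-! ## D. Existence of odd solutions -/

/-- [SQ eo] Growth of `EO`. PROOF. Extend `(P, N)`: (1) the same pair; (2) add `a` to `P` or `N`;
(3) add `a` and `b` to `P` or `N` in the four possible ways. (4) `P = N = ∅`. (5) from the
definition. -/
def S_eo : Prop := ∀ (p : ℕ) [NeZero p] (s : Finset (ZMod p × ZMod p)) (i : ℕ),
  (∀ s', s ⊆ s' → EO i s ⊆ EO i s') ∧
  (∀ a ∉ s, ∀ z ∈ EO i s, z + a.1 ∈ EO (i + 1) (insert a s) ∧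
    z - a.1 ∈ EO (i + 1) (insert a s)) ∧
  (∀ a ∉ s, ∀ b ∉ s, a ≠ b → ∀ z ∈ EO i s, z + a.1 + b.1 ∈ EO i (insert a (insert b s)) ∧
    z + a.1 - b.1 ∈ EO i (insert a (insert b s)) ∧ z - a.1 + b.1 ∈ EO i (insert a (insert b s)) ∧
    z - a.1 - b.1 ∈ EO i (insert a (insert b s))) ∧
  (0 : ZMod p) ∈ EO 0 s ∧
  ((0 : ZMod p) ∈ EO 1 s ↔ OddSol s)

/-- [SQ gr1] Growth for one element. Uses `S_eo`. PROOF. `x = a.1 ≠ 0` (otherwise `{a}` is an odd
solution). `EO 1 (insert a s)` contains `EO 0 s + {x, -x}`, which by Cauchy-Davenport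
(`ZMod.cauchy_davenport`; `x ≠ -x`) has at least `min p (#E + 1)` elements (`E = EO 0 s ∋ 0`,
`O = EO 1 s`), and it is not everything (it does not contain `0`), so `#O' ≥ #E + 1`. If `O = ∅` then
`#E' ≥ 1 = #O + 1`; otherwise `E' ⊇ O + {x, -x}` has at least `min p (#O + 1) = #O + 1` elements, because
`#O ≤ p - 1` (`O ⊆ O'` does not contain `0`). -/
def S_gr1 : Prop := ∀ (p : ℕ) (_ : p.Prime) (_ : p ≠ 2) [NeZero p] (s : Finset (ZMod p × ZMod p))
  (a : ZMod p × ZMod p), a ∉ s → ¬ OddSol (insert a s) →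
  #(EO 0 s) + #(EO 1 s) + 2 ≤ #(EO 0 (insert a s)) + #(EO 1 (insert a s))

/-- [SQ gr2] Growth for two elements of different classes, `s' = s ∪ {a, b}`, when there is a further
element `c`. Uses `S_eo`. PROOF. `x = a.1`, `y = b.1`, `T = {0, x+y, x-y, -x+y, -x-y}` has 5 elements
(`x, y ≠ 0`, `x ≠ ±y`, `2 ≠ 0`). With `E = EO 0 s`, `O = EO 1 s`, `E' = EO 0 s'`, `O' = EO 1 s'`:
`E' ⊇ E + T` has at least `min p (#E + 4)` elements (`ZMod.cauchy_davenport`), and `E'` is not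
everything: otherwise `E' + c.1 ∋ 0` is contained in
`EO 1 (s' ∪ {c})`. So `#E' ≥ #E + 4`. If `O = ∅` then `O' ⊇ {x, -x, y, -y}` has at least 4 elements
(`S_eo` for `0 ∈ E` and one element, and monotonicity); otherwise `O' ⊇ O + T` and `0 ∉ O'`, so
`#O' ≥ #O + 4`. -/
def S_gr2 : Prop := ∀ (p : ℕ) (_ : p.Prime) (_ : p ≠ 2) [NeZero p] (s : Finset (ZMod p × ZMod p))
  (a b c : ZMod p × ZMod p), a ∉ s → b ∉ s → a ≠ b → c ∉ insert a (insert b s) →
  a.1 ≠ b.1 → a.1 ≠ - b.1 → ¬ OddSol (insert c (insert a (insert b s))) →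
  #(EO 0 s) + #(EO 1 s) + 8 ≤
    #(EO 0 (insert a (insert b s))) + #(EO 1 (insert a (insert b s)))

/-- [SQ grow] Uses `S_gr1`, `S_gr2`, `S_eo`. PROOF. By induction on `l` (add the pairs one after the
other with `S_gr2`; there is always a further element `c` of `A`, as
`2 l.length + 1 ≤ #A`): `#(EO 0 F) + #(EO 1 F) ≥ 1 + 8 l.length` for `F = (flat l).toFinset` (for
the empty list: `0 ∈ EO 0 ∅`). Then add the other `#A - 2 l.length ≥ 1` elements with `S_gr1` (each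
subset of `A` has no odd solution): `1 + 8 q + 2 (#A - 2q) ≤ #(EO 0 A) + #(EO 1 A) ≤ p + (p - 1)`, as
`0 ∉ EO 1 A`. -/
def S_grow : Prop := ∀ (p : ℕ) (_ : p.Prime) (_ : p ≠ 2) (A : Finset (ZMod p × ZMod p))
  (l : List ((ZMod p × ZMod p) × (ZMod p × ZMod p))), (flat l).Nodup → (∀ z ∈ flat l, z ∈ A) →
  (∀ x ∈ l, x.1.1 ≠ x.2.1 ∧ x.1.1 ≠ - x.2.1) → 2 * l.length + 1 ≤ #A → ¬ OddSol A →
  #A + 2 * l.length ≤ p - 1

/-- [SQ mat] A list of pairs of different classes, or a large class. PROOF. Induction on `q`. Given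
a list for `q` (otherwise the class of the induction hypothesis works), the set
`A' = A \ (flat l).toFinset` has `#A - 2q ≥ 2` elements. If it contains two elements
`a`, `b` with `a.1 ≠ ± b.1`, add the pair `(a, b)`. Otherwise fix `a ∈ A'` and put `x = a.1`; all
elements of `A'` are in the class of `x`, so `#A ≤ #filter + 2q`. -/
def S_mat : Prop := ∀ (p : ℕ) (A : Finset (ZMod p × ZMod p)) (q : ℕ), 2 * q ≤ #A →
  (∃ l : List ((ZMod p × ZMod p) × (ZMod p × ZMod p)), l.length = q ∧ (flat l).Nodup ∧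
    (∀ z ∈ flat l, z ∈ A) ∧ ∀ x ∈ l, x.1.1 ≠ x.2.1 ∧ x.1.1 ≠ - x.2.1) ∨
  ∃ a ∈ A, #A ≤ #(A.filter fun b => b.1 = a.1 ∨ b.1 = - a.1) + 2 * q

/-- [SQ jsm] PROOF. Let `p` be odd. `J v` is odd, `J v ≤ p`, and `(J v : ZMod p) = ±v`. Suppose
`p ≤ ∑_{a ∈ W} J(a.1) + #U`. Choose `W' ⊆ W` minimal with `p ≤ T + #U`, `T = ∑_{W'} J(a.1)`. If
`W' = ∅` then `#U ≥ p`. Otherwise the sum without one element is `< p - #U`, so
`T < 2p - #U ≤ p + #U + 1`, i.e. `T ≤ p + #U`. In both cases choose `U' ⊆ U` with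
`#U' = |p - T| ≤ #U` elements (if `W' = ∅`: `#U' = p`). Give each `a ∈ W'` the sign for which it
contributes `J(a.1)`, and each `a ∈ U'` the sign for which it contributes `1` if `T ≤ p` and `-1` if
`T > p`. The signed sum of first coordinates is `p = 0`, and the number of elements is
`#W' + |p - T| ≡ T + (p - T) = p ≡ 1 (mod 2)` (all `J` are odd). So there is an odd solution in
`U ∪ W`. -/
def S_jsm : Prop := ∀ (p : ℕ) (_ : p.Prime) (_ : p ≠ 2) (U W : Finset (ZMod p × ZMod p)),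
  Disjoint U W → (∀ a ∈ U, a.1 = 1 ∨ a.1 = -1) → p ≤ 2 * #U + 1 → ¬ OddSol (U ∪ W) →
  ∑ a ∈ W, J a.1 + #U < p

/-- [SQ jv] Elementary properties of `J`. PROOF. `ZMod.val` arithmetic: `v.val < p`; if `v.val` is
even then `p - v.val` is odd and `((p - v.val : ℕ) : ZMod p) = -v`. If `J v = 1` then `v.val = 1` or
`v.val = p - 1`, so `v = ±1`. -/
def S_jv : Prop := ∀ (p : ℕ) (_ : p.Prime) (_ : p ≠ 2) (v : ZMod p),
  Odd (J v) ∧ J v ≤ p ∧ ((J v : ℕ) : ZMod p) = (if v.val % 2 = 1 then v else - v) ∧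
  (v ≠ 1 → v ≠ -1 → 3 ≤ J v)

/-! ## E. Almost all elements in one class -/

/-- [SQ spl] Splitting. PROOF. Let `T ⊆ s` contain exactly one element of every fibre of `f` (the
image of a section). The fibres have at most two elements, so `f` is injective on `T` and on
`s \ T`. Let `T₁` be the set of `a ∈ T` whose fibre is `{a}`; `#(T \ T₁) = #(s \ T)`, so
`#s = 2 #(s \ T) + #T₁`. Choose `R ⊆ T₁` with `#R = #T₁ / 2` and put `s₁ = (s \ T) ∪ R`;
`#s₁ = #(s \ T) + #T₁ / 2 = #s / 2`. `f` is injective on `s₁` (the fibre of an element of `R` is a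
singleton) and on `s \ s₁ ⊆ T`. -/
def S_spl : Prop := ∀ (ι β : Type) [DecidableEq ι] [DecidableEq β] (s : Finset ι) (f : ι → β),
  (∀ y, #(s.filter fun a => f a = y) ≤ 2) →
  ∃ s₁ ⊆ s, #s₁ = #s / 2 ∧ Set.InjOn f s₁ ∧ Set.InjOn f (s \ s₁ : Finset ι)

/-- [SQ avg] Averaging. PROOF. Suppose `#X^2 < k (#Y - 1)` for all pairs `b ≠ b'` of elements of
`Y`, `k = #((X + b) ∩ (X + b'))`. Summing over the `#Y (#Y - 1)` ordered pairs,
`#X^2 #Y (#Y - 1) < (#Y - 1) ∑ k`. But `∑ k` is the number of `(b, b', x, x')` with `b ≠ b'`,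
`x + b = x' + b'`, which is at most `#X^2 #Y` (`b'` is determined by `b`, `x`, `x'`): contradiction. -/
def S_avg : Prop := ∀ (G : Type) [AddCommGroup G] [DecidableEq G] (X Y : Finset G), 2 ≤ #Y →
  ∃ b ∈ Y, ∃ b' ∈ Y, b ≠ b' ∧
    #(X.image (fun x => x + b) ∩ X.image (fun x => x + b')) * (#Y - 1) ≤ #X ^ 2

/-- [SQ rsum] Restricted sums. Uses `S_spl`, `S_avg`. PROOF. First choose a subset `O₀` of `t - 4`
elements of `s`; let `s' = s \ O₀`, `#s' = #s - t + 4`, and `z' = z - ∑_{O₀} f`. We look for 4 distinct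
elements of `s'` with sum `z'`. Let `h = #s' / 2`, `U₁ ⊆ s'` the set of `S_spl`, `#U₁ = h`, and
`U₂ = s' \ U₁`, `#U₂ ≥ h`. Choose `X ⊆ U₁` with `g = h / 2` elements and `Y ⊆ U₂` with `h` elements,
apply `S_avg` to `f(X)`, `f(Y)`: there are `b ≠ b'` in `Y` such that
`D = (f(X) + f(b)) ∪ (f(X) + f(b'))` has at least `2g - g²/(h-1) ≥ (h - 1) - (h/4 + 1)` elements
(`4 g² ≤ h²`, `h² ≤ (h - 1)(h + 2)`). By Cauchy-Davenport (`ZMod.cauchy_davenport`)
`D + f(U₁ \ X) + f(U₂ \ {b, b'})` has at least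
`min p (#D + (h - g) + (h - 2) - 2)` elements, and `#D + (h - g) + (h - 2) - 2 ≥ 3h/4 - 2 + h/2 + h - 4 =
9h/4 - 6 ≥ p`, as `h ≥ (#s' - 1)/2` and `9 #s' ≥ 8p + 66`. So `z'` is a sum
`f(x) + f(b or b') + f(u₁) + f(u₂)` with `x ∈ X`, `u₁ ∈ U₁ \ X`, `u₂ ∈ U₂ \ {b, b'}`: four distinct
elements. (`2 ≤ h` etc. because `p ≥ 2`.) -/
def S_rsum : Prop := ∀ (p : ℕ) (_ : p.Prime) (ι : Type) [DecidableEq ι] (s : Finset ι)
  (f : ι → ZMod p), (∀ y, #(s.filter fun a => f a = y) ≤ 2) → ∀ t : ℕ, 4 ≤ t →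
  8 * p + 9 * t + 30 ≤ 9 * #s → ∀ z : ZMod p, ∃ O ⊆ s, #O = t ∧ ∑ a ∈ O, f a = z

/-- [SQ c1b] The direct construction. Uses `S_rsum`, `S_jv`. PROOF. Let
`U = {a ∈ A | a.1 = ±1}`, `W = A \ U`. For `a ∈ U` let `n(a) = a` if `a.1 = 1` and `n(a) = -a`
otherwise (`1 ≠ -1`), for `a ∈ W` let `n(a) = a` if `a.1.val` is odd, `n(a) = -a` otherwise. So
`n(a).1 = 1` for `a ∈ U` and `n(a).1 = J(a.1)` for `a ∈ W`. `∑_W J(a.1)` has the parity of `#W`, and is at
least `#W`; let `∑_W J(a.1) = #W + 2k`, so `k ≤ K`. Choose `M ⊆ U` with `#M = k` (`k ≤ #U`). By `S_rsum`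
for `s = U \ M`, `f(a) = n(a).2` (fibres: at most one element with `a.1 = 1`
and one with `a.1 = -1`) there is `O ⊆ U \ M` with `#O = t` and
`∑_O n(a).2 = ∑_U n(a).2 - 2 ∑_M n(a).2 + ∑_W n(a).2`. Then
`∑_{U \ (M ∪ O)} n(a) - ∑_M n(a) + ∑_W n(a)` has second coordinate `0` and first coordinate
`(#U - t - 2k) + ∑_W J = #U - t + #W = p = 0`. It is a signed sum of `#U - t + #W = p` distinct
elements of `A`. -/
def S_c1b : Prop := ∀ (p : ℕ) (_ : p.Prime) (_ : p ≠ 2) (A : Finset (ZMod p × ZMod p))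
  (t K : ℕ), 4 ≤ t → #A = p + t →
  ∑ a ∈ A.filter (fun a => ¬ (a.1 = 1 ∨ a.1 = -1)), J a.1 ≤
    #(A.filter fun a => ¬ (a.1 = 1 ∨ a.1 = -1)) + 2 * K →
  8 * p + 9 * t + 30 + 9 * K ≤ 9 * #(A.filter fun a => a.1 = 1 ∨ a.1 = -1) → Sol A p

/-! ## F. Lower bound -/

/-- [SQ low] The lower bound. PROOF. Let `t = Nat.log 2 p`, `2^t ≤ p`. Let `A` be the set of the
`(0, y)`, `y ≠ 0`, and of the `(2^i, 0)`, `i < t`; the `2^i` are different mod `p` as
`2^i < 2^t ≤ p`, so `#A = p - 1 + t`. Let `(P, N)` be a signed sum `0` with `p` elements of `A`. The first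
coordinate is `∑_{i ∈ I} 2^i - ∑_{i ∈ I'} 2^i` with disjoint `I`, `I'`, an integer of absolute value
`≤ 2^t - 1 < p`, so it is `0` as an integer, and `I = I' = ∅` (uniqueness of binary expansion:
`Finset.geomSum_injective` or `Nat.ofDigits`; if `i` is the largest element of `I ∪ I'` then the
sum of the others has absolute value `< 2^i`). So `P ∪ N` has at most `p - 1 < p` elements:
contradiction. So `0 ∉ signedSumset A p`, and `tau ≥ #A` (`le_csSup`; the set is bounded by the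
number of elements of `ZMod p × ZMod p`; or `le_tau` in `Basic.lean`). -/
def S_low : Prop := ∀ (p : ℕ) (_ : p.Prime), p - 1 + Nat.log 2 p ≤ tau (ZMod p × ZMod p) p

/-- [SQ up] From sets of size `p + log p` to `tau`. PROOF. `tau` is the maximum of the sizes of the
sets `A` with `0 ∉ signedSumset A p` (`exists_tau`, `zero_mem_signedSumset_iff` in `Basic.lean`). If such a
set had at least `p + log p` elements, it would contain a subset with exactly `p + log p` elements,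
which has a solution `(P, N)` by hypothesis: `0 ∈ signedSumset A p`. -/
def S_up : Prop := ∀ (p : ℕ) (_ : p.Prime),
  (∀ A : Finset (ZMod p × ZMod p), #A = p + Nat.log 2 p → Sol A p) →
    tau (ZMod p × ZMod p) p ≤ p - 1 + Nat.log 2 p

/-- [SQ num] Numerical facts for `p ≥ 10^12`. With `t = Nat.log 2 p`, `r = p / 255 + 1 + t`,
`η = 2 / 10^5`: (1) `t` is between 4 and `p / 10^6`. (2) the number `E` of exceptions,
`E η² ≤ 4 log p + t`, is at most `6 p / 10`, (3) everything else is small. PROOF. (1) `p < 2^(t+1)`;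
`2^t ≤ p` and `10^6 t ≤ 2^t` for `t ≥ 30` (`t ≥ 39` as `p ≥ 10^12 > 2^39`). (2)
`t ≤ 1.4427 log p`; `log x / x` is decreasing for `x ≥ e`, so it suffices to bound it at `10^12`:
`log (10^12) = 12 log 10 ≤ 27.7`; `(4 · 27.7 + 40) · 2.5 · 10^9 = 3.77 · 10^11 ≤ 6 · 10^11`. (Or:
`log p ≤ t + 1`, so `E ≤ (5 t + 4) · 2.5 · 10^9`. If `t = 39` this is at most `0.6 · 10^12 ≤ 0.6 p`,
and if `t ≥ 40` it is at most `0.6 · 2^t ≤ 0.6 p`, by induction on `t`.) (3) by `omega` from (1). -/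
def S_num : Prop := ∀ (p : ℕ), 10 ^ 12 ≤ p →
  39 ≤ Nat.log 2 p ∧ 10 ^ 6 * Nat.log 2 p ≤ p ∧
  (∀ E : ℕ, (E : ℝ) * (2 / 10 ^ 5) ^ 2 ≤ 4 * Real.log p + Nat.log 2 p → 10 * E ≤ 6 * p) ∧
  (∀ Nc : ℕ, (Nc : ℝ) ≤ (2 / 10 ^ 5) * p + 3 →
    10 * (16384 * Nc + 16 * (p / 255 + 1 + Nat.log 2 p)) ≤ 4 * p)

end Pool.Agent.Lib.MP_8ac08c_co.SQ
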