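import Pool.Agent.Lib.MP_8ac08c_co.SQ.Asm
import Pool.Agent.Lib.MP_8ac08c_co.SQ.P.fca
import Pool.Agent.Lib.MP_8ac08c_co.SQ.P.fcb
import Pool.Agent.Lib.MP_8ac08c_co.SQ.P.four
import Pool.Agent.Lib.MP_8ac08c_co.SQ.P.cnt
import Pool.Agent.Lib.MP_8ac08c_co.SQ.P.conc
import Pool.Agent.Lib.MP_8ac08c_co.SQ.P.lin
import Pool.Agent.Lib.MP_8ac08c_co.SQ.P.stp
import Pool.Agent.Lib.MP_8ac08c_co.SQ.P.grp
import Pool.Agent.Lib.MP_8ac08c_co.SQ.P.app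
import Pool.Agent.Lib.MP_8ac08c_co.SQ.P.grps
import Pool.Agent.Lib.MP_8ac08c_co.SQ.P.sel
import Pool.Agent.Lib.MP_8ac08c_co.SQ.P.dis
import Pool.Agent.Lib.MP_8ac08c_co.SQ.P.fin
import Pool.Agent.Lib.MP_8ac08c_co.SQ.P.eo
import Pool.Agent.Lib.MP_8ac08c_co.SQ.P.gr1
import Pool.Agent.Lib.MP_8ac08c_co.SQ.P.gr2
import Pool.Agent.Lib.MP_8ac08c_co.SQ.P.grow
import Pool.Agent.Lib.MP_8ac08c_co.SQ.P.mat
import Pool.Agent.Lib.MP_8ac08c_co.SQ.P.jv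
import Pool.Agent.Lib.MP_8ac08c_co.SQ.P.jsm
import Pool.Agent.Lib.MP_8ac08c_co.SQ.P.spl
import Pool.Agent.Lib.MP_8ac08c_co.SQ.P.avg
import Pool.Agent.Lib.MP_8ac08c_co.SQ.P.rsum
import Pool.Agent.Lib.MP_8ac08c_co.SQ.P.c1b
import Pool.Agent.Lib.MP_8ac08c_co.SQ.P.low
import Pool.Agent.Lib.MP_8ac08c_co.SQ.P.up
import Pool.Agent.Lib.MP_8ac08c_co.SQ.P.num

/-!
# MP_8ac08c_co, project SQ: the theorem
-/

set_option autoImplicit false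

namespace Pool.Agent.Lib.MP_8ac08c_co.SQ

theorem tau_prime_square (p : ℕ) (hp : p.Prime) (h : 10 ^ 12 ≤ p) :
    tau (ZMod p × ZMod p) p = p - 1 + Nat.log 2 p :=
  main (p_four p_fca p_fcb) (p_conc p_cnt) p_lin (p_grps (p_grp p_stp) p_app) p_app
    (p_fin p_dis p_app p_sel) (p_grow (p_gr1 p_eo) (p_gr2 p_eo) p_eo) p_mat p_jsm p_jv
    (p_c1b (p_rsum p_spl p_avg) p_jv) p_low p_up p_num p hp h

end Pool.Agent.Lib.MP_8ac08c_co.SQ
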