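import Pool.Agent.Lib.MP_8ac08c_co.SQ.Stm

/-!
# MP_8ac08c_co, project SQ: assembly from the pieces
-/

set_option autoImplicit false

open Finset

namespace Pool.Agent.Lib.MP_8ac08c_co.SQ

abbrev PL (p : ℕ) : Type := List ((ZMod p × ZMod p) × (ZMod p × ZMod p))

lemma PairList.mono {p : ℕ} {Y A : Finset (ZMod p × ZMod p)} {l : PL p} (h : PairList Y l)
    (hYA : Y ⊆ A) : PairList A l :=
  ⟨h.nodup, fun z hz => hYA (h.mem z hz), h.fst⟩

lemma card_flat {p : ℕ} (h : S_app) {Y : Finset (ZMod p × ZMod p)} {l : PL p}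
    (hl : PairList Y l) : #((flat l).toFinset) = 2 * l.length := by
  rw [List.toFinset_card_of_nodup hl.nodup]
  exact (h p l l).2.2.2.2

lemma flat_sub {p : ℕ} {Y : Finset (ZMod p × ZMod p)} {l : PL p}
    (hl : PairList Y l) : (flat l).toFinset ⊆ Y := by
  intro z hz
  exact hl.mem z (List.mem_toFinset.1 hz)

/-- covering pairs and spare pairs -/
lemma pairs (h_grps : S_grps) (h_app : S_app) {p : ℕ} (hp : p.Prime) (hp2 : p ≠ 2) [NeZero p]
    (t : ℕ) (Y : Finset (ZMod p × ZMod p))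
    (hY : 16384 * #(Y.image Prod.fst) + 16 * (p / 255 + 1 + t) ≤ #Y) :
    ∃ l₁ l₂ : PL p, PairList Y (l₁ ++ l₂) ∧ sg l₁ = univ ∧
      l₁.length = 8 * (p / 255 + 1) ∧ l₂.length = 8 * t := by
  obtain ⟨l₂, h2, hl2, -⟩ := h_grps p hp hp2 Y t (by omega)
  have hc := card_flat h_app h2
  have hsub := flat_sub h2
  have hcard : #(Y \ (flat l₂).toFinset) = #Y - 2 * l₂.length := by
    rw [card_sdiff_of_subset hsub, hc]
  have himg : #((Y \ (flat l₂).toFinset).image Prod.fst) ≤ #(Y.image Prod.fst) :=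
    card_le_card (image_subset_image sdiff_subset)
  obtain ⟨l₁, h1, hl1, hs⟩ := h_grps p hp hp2 (Y \ (flat l₂).toFinset) (p / 255 + 1) (by
    rw [hcard, hl2]
    omega)
  refine ⟨l₁, l₂, (h_app p l₂ l₁).2.2.1 Y h1 h2, ?_, hl1, hl2⟩
  have h3 : p ≤ #(sg l₁) := by
    have : min p (255 * (p / 255 + 1) + 1) = p := by
      apply min_eq_left
      omega
    rw [this] at hs
    exact hs
  apply eq_univ_of_card
  rw [ZMod.card]
  apply le_antisymm _ h3
  calc #(sg l₁) ≤ Fintype.card (ZMod p) := card_le_univ _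
    _ = p := ZMod.card p

/-- almost all elements in the class of `1` -/
lemma case1 (h_grps : S_grps) (h_app : S_app) (h_fin : S_fin) (h_jsm : S_jsm) (h_jv : S_jv)
    (h_c1b : S_c1b) (h_num : S_num) {p : ℕ} (hp : p.Prime) (hp12 : 10 ^ 12 ≤ p)
    (A : Finset (ZMod p × ZMod p)) (hA : #A = p + Nat.log 2 p)
    (hU : p + Nat.log 2 p ≤ #(A.filter fun b => b.1 = 1 ∨ b.1 = -1) +
      32 * (p / 255 + 1 + Nat.log 2 p)) : Sol A p := by
  have : NeZero p := ⟨hp.ne_zero⟩
  have hp2 : p ≠ 2 := by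
    rintro rfl
    norm_num at hp12
  obtain ⟨n1, n2, -, -⟩ := h_num p hp12
  set t := Nat.log 2 p with ht
  set U := A.filter fun b => b.1 = 1 ∨ b.1 = -1 with hUdef
  have himg : #(U.image Prod.fst) ≤ 2 := by
    have hsub : U.image Prod.fst ⊆ {1, -1} := by
      intro y hy
      obtain ⟨b, hb, rfl⟩ := mem_image.1 hy
      rw [hUdef, mem_filter] at hb
      rw [mem_insert, mem_singleton]
      exact hb.2
    exact (card_le_card hsub).trans card_le_two
  obtain ⟨l₁, l₂, hl, hs, hl1, hl2⟩ := pairs h_grps h_app hp hp2 t U (by omega)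
  have hUA : U ⊆ A := filter_subset _ _
  have hlA := hl.mono hUA
  by_cases ho : OddSol (A \ (flat (l₁ ++ l₂)).toFinset)
  · exact h_fin p hp hp2 A l₁ l₂ hA hlA hs (by omega) ho
  have hc := card_flat h_app hl
  have hlen : (l₁ ++ l₂).length = 8 * (p / 255 + 1 + t) := by
    rw [List.length_append, hl1, hl2]
    ring
  rw [hlen] at hc
  have hsub := flat_sub hl
  set F := (flat (l₁ ++ l₂)).toFinset with hF
  have hUF : #(U \ F) = #U - 16 * (p / 255 + 1 + t) := by
    rw [card_sdiff_of_subset hsub, hc]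
    omega
  set W := A.filter (fun a => ¬ (a.1 = 1 ∨ a.1 = -1)) with hW
  have hUW : #U + #W = #A := by
    rw [hUdef, hW]
    exact card_filter_add_card_filter_not _
  have hdisj : Disjoint (U \ F) W := by
    rw [disjoint_left]
    intro a ha ha'
    rw [mem_sdiff, hUdef, mem_filter] at ha
    rw [hW, mem_filter] at ha'
    exact ha'.2 ha.1.2
  have hsum := h_jsm p hp hp2 (U \ F) W hdisj
    (by
      intro a ha
      rw [mem_sdiff, hUdef, mem_filter] at ha
      exact ha.1.2)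
    (by omega)
    (by
      rintro ⟨P, N, hP, hN, h1, h2, h3⟩
      apply ho
      have hsub' : (U \ F) ∪ W ⊆ A \ F := by
        intro a ha
        rw [mem_union] at ha
        rcases ha with ha | ha
        · rw [mem_sdiff] at ha ⊢
          exact ⟨hUA ha.1, ha.2⟩
        · rw [mem_sdiff]
          rw [hW, mem_filter] at ha
          refine ⟨ha.1, fun hF' => ha.2 ?_⟩
          have := hsub hF'
          rw [hUdef, mem_filter] at this
          exact this.2
      exact ⟨P, N, hP.trans hsub', hN.trans hsub', h1, h2, h3⟩)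
  have h3W : 3 * #W ≤ ∑ a ∈ W, J a.1 := by
    rw [mul_comm, ← smul_eq_mul, ← sum_const]
    apply sum_le_sum
    intro a ha
    rw [hW, mem_filter, not_or] at ha
    exact (h_jv p hp hp2 a.1).2.2.2 ha.2.1 ha.2.2
  refine h_c1b p hp hp2 A t (8 * (p / 255 + 1 + t)) (by omega) hA ?_ ?_
  · rw [← hW]
    omega
  · rw [← hUdef]
    omega

lemma sol_subset {G : Type} [AddCommGroup G] {A B : Finset G} {k : ℕ} (h : Sol A k)
    (hAB : A ⊆ B) : Sol B k := by
  obtain ⟨P, N, hP, hN, h1, h2, h3⟩ := h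
  exact ⟨P, N, hP.trans hAB, hN.trans hAB, h1, h2, h3⟩

theorem upper (h_four : S_four) (h_conc : S_conc) (h_lin : S_lin) (h_grps : S_grps)
    (h_app : S_app) (h_fin : S_fin) (h_grow : S_grow) (h_mat : S_mat) (h_jsm : S_jsm)
    (h_jv : S_jv) (h_c1b : S_c1b) (h_num : S_num) {p : ℕ} (hp : p.Prime) (hp12 : 10 ^ 12 ≤ p)
    (A : Finset (ZMod p × ZMod p)) (hA : #A = p + Nat.log 2 p) : Sol A p := by
  have : NeZero p := ⟨hp.ne_zero⟩
  have : Fact p.Prime := ⟨hp⟩
  have hp2 : p ≠ 2 := by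
    rintro rfl
    norm_num at hp12
  obtain ⟨n1, n2, n3, n4⟩ := h_num p hp12
  by_cases hc : ∀ c : ZMod p × ZMod p, c ≠ 0 →
      4 * Real.log p + (Nat.log 2 p : ℕ) < ∑ a ∈ A, Real.sin (ang c a) ^ 2
  · exact h_four p hp A p (Nat.log 2 p) hA hc
  push Not at hc
  obtain ⟨c, hc0, hcs⟩ := hc
  obtain ⟨φ, hφ⟩ := h_lin.1 p hp c hc0
  apply h_lin.2 p φ A p
  have hA1 : #(A.image φ) = p + Nat.log 2 p := by
    rw [card_image_of_injective _ φ.injective, hA]
  have hsum : ∑ a ∈ A.image φ, Real.sin (2 * Real.pi * (a.1.val : ℝ) / p) ^ 2 ≤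
      4 * Real.log p + (Nat.log 2 p : ℕ) := by
    rw [sum_image (fun a _ b _ h => φ.injective h)]
    refine le_trans (le_of_eq ?_) hcs
    apply sum_congr rfl
    intro a _
    rw [hφ, ang]
  set A₁ := A.image φ with hA₁
  obtain ⟨Y, hYA, hYe, hYc⟩ := h_conc p hp A₁ _ (2 / 10 ^ 5) (by norm_num) hsum
  have hE := n3 _ hYe
  have hN := n4 _ hYc
  have hYcard : #Y + #(A₁ \ Y) = #A₁ := by
    rw [card_sdiff_of_subset hYA]
    have := card_le_card hYA
    omega
  set t := Nat.log 2 p with ht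
  obtain ⟨l₁, l₂, hl, hs, hl1, hl2⟩ := pairs h_grps h_app hp hp2 t Y (by omega)
  have hlA := hl.mono hYA
  by_cases ho : OddSol (A₁ \ (flat (l₁ ++ l₂)).toFinset)
  · exact h_fin p hp hp2 A₁ l₁ l₂ hA1 hlA hs (by omega) ho
  have hcf := card_flat h_app hlA
  have hlen : (l₁ ++ l₂).length = 8 * (p / 255 + 1 + t) := by
    rw [List.length_append, hl1, hl2]
    ring
  rw [hlen] at hcf
  have hsub := flat_sub hlA
  set F := (flat (l₁ ++ l₂)).toFinset with hF
  have hAF : #(A₁ \ F) = p + t - 16 * (p / 255 + 1 + t) := by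
    rw [card_sdiff_of_subset hsub, hcf, hA1]
    omega
  rcases h_mat p (A₁ \ F) (8 * (p / 255 + 1 + t)) (by omega) with ⟨l, hll, hnd, hmem, hcl⟩ | ⟨a, ha, hcl⟩
  · exfalso
    have := h_grow p hp hp2 (A₁ \ F) l hnd hmem hcl (by omega) ho
    have hpos := hp.pos
    omega
  have ha0 : a.1 ≠ 0 := by
    intro h0
    apply ho
    refine ⟨{a}, ∅, by simpa using ha, by simp, by simp, by simp, by simpa using h0⟩
  obtain ⟨φ', hφ'⟩ := h_lin.1 p hp (a.1⁻¹, 0) (by
    intro h0
    have := congrArg Prod.fst h0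
    simp only [Prod.fst_zero] at this
    exact ha0 (inv_eq_zero.1 this))
  apply h_lin.2 p φ' A₁ p
  have hφ1 : ∀ b, (φ' b).1 = a.1⁻¹ * b.1 := by
    intro b
    rw [hφ']
    simp
  apply case1 h_grps h_app h_fin h_jsm h_jv h_c1b h_num hp hp12
  · rw [card_image_of_injective _ φ'.injective, hA1]
  · have hle : #((A₁ \ F).filter fun b => b.1 = a.1 ∨ b.1 = -a.1) ≤
        #((A₁.image φ').filter fun b => b.1 = 1 ∨ b.1 = -1) := by
      apply card_le_card_of_injOn φ'
      · intro b hb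
        rw [mem_coe, mem_filter] at hb
        rw [mem_coe, mem_filter]
        refine ⟨mem_image_of_mem _ (mem_sdiff.1 hb.1).1, ?_⟩
        rw [hφ1]
        rcases hb.2 with h | h
        · left
          rw [h, inv_mul_cancel₀ ha0]
        · right
          rw [h, mul_neg, inv_mul_cancel₀ ha0]
      · exact φ'.injective.injOn
    omega

/-- The theorem, from the pieces. -/
theorem main (h_four : S_four) (h_conc : S_conc) (h_lin : S_lin) (h_grps : S_grps)
    (h_app : S_app) (h_fin : S_fin) (h_grow : S_grow) (h_mat : S_mat) (h_jsm : S_jsm)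
    (h_jv : S_jv) (h_c1b : S_c1b) (h_low : S_low) (h_up : S_up) (h_num : S_num) (p : ℕ)
    (hp : p.Prime) (hp12 : 10 ^ 12 ≤ p) :
    tau (ZMod p × ZMod p) p = p - 1 + Nat.log 2 p :=
  le_antisymm (h_up p hp fun A hA => upper h_four h_conc h_lin h_grps h_app h_fin h_grow h_mat
    h_jsm h_jv h_c1b h_num hp hp12 A hA) (h_low p hp)

end Pool.Agent.Lib.MP_8ac08c_co.SQ
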